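import Pool.Agent.Lib.MP_85fd23_an_W.Scat

/-!
# MP_85fd23_an, project W: cones

`x ↦ L N (x - y)` is good with the constant `L`; norming functionals.
-/

set_option autoImplicit false

open Filter Metric Set
open scoped Topology

namespace Pool.Agent.MP_85fd23_an.W

open Pool.Agent.MP_85fd23_an.B

variable {X : Type*} [NormedAddCommGroup X] [NormedSpace ℝ X]

theorem N_zero {N : X → ℝ} (hN : EquivNorm N) : N 0 = 0 := by
  have h := hN.smul 0 (0 : X)
  simpa using h

/-- Hahn-Banach: a norming functional. -/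
theorem exists_norming {N : X → ℝ} (hN : EquivNorm N) (x : X) :
    ∃ ξ : X →L[ℝ] ℝ, PB N 1 ξ ∧ ξ x = N x := by
  obtain ⟨a, b, ha, hab⟩ := hN.equiv
  rcases eq_or_ne x 0 with rfl | hx
  · refine ⟨0, fun v => ?_, by simp [N_zero hN]⟩
    rw [zero_apply, one_mul]
    exact hN.nonneg v
  · -- the functional on the line
    obtain ⟨f, hf⟩ : ∃ f : (Submodule.span ℝ {x}) →ₗ[ℝ] ℝ, ∀ t : ℝ, ∀ h : t • x ∈ Submodule.span ℝ {x},
        f ⟨t • x, h⟩ = t * N x := by
      refine ⟨(N x) • (LinearEquiv.toSpanNonzeroSingleton ℝ X x hx).symm.toLinearMap, fun t h => ?_⟩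
      have h1 : (LinearEquiv.toSpanNonzeroSingleton ℝ X x hx).symm ⟨t • x, h⟩ = t := by
        rw [LinearEquiv.symm_apply_eq]
        rfl
      rw [LinearMap.smul_apply, LinearEquiv.coe_coe, h1, smul_eq_mul, mul_comm]
    obtain ⟨g, hg1, hg2⟩ := exists_extension_of_le_sublinear ⟨Submodule.span ℝ {x}, f⟩ N
      (fun c hc v => by rw [hN.smul, abs_of_pos hc]) hN.add_le (by
        rintro ⟨v, hv⟩
        obtain ⟨t, rfl⟩ := Submodule.mem_span_singleton.1 hv
        change f ⟨t • x, hv⟩ ≤ N (t • x)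
        rw [hf, hN.smul]
        exact mul_le_mul_of_nonneg_right (le_abs_self t) (hN.nonneg x))
    have hb : ∀ v, ‖g v‖ ≤ b * ‖v‖ := fun v => by
      rw [Real.norm_eq_abs, abs_le]
      have h1 := (hg2 v).trans (hab v).2
      have h2 := (hg2 (-v)).trans (hab (-v)).2
      rw [map_neg, norm_neg] at h2
      constructor <;> linarith
    refine ⟨g.mkContinuous b hb, fun v => ?_, ?_⟩
    · rw [one_mul]
      exact hg2 v
    · have hm : (1 : ℝ) • x ∈ Submodule.span ℝ {x} :=
        Submodule.smul_mem _ _ (Submodule.mem_span_singleton_self x)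
      have h1 := hg1 ⟨(1 : ℝ) • x, hm⟩
      have h2 := hf 1 hm
      change g x = N x
      have h3 : g ((1 : ℝ) • x) = f ⟨(1 : ℝ) • x, hm⟩ := h1
      have h4 : g ((1 : ℝ) • x) = g x := by rw [one_smul]
      rw [← h4, h3, h2, one_mul]

theorem N_lip {N : X → ℝ} (hN : EquivNorm N) (x y z : X) : N (x - z) ≤ N (x - y) + N (y - z) := by
  have h := hN.add_le (x - y) (y - z)
  rwa [sub_add_sub_cancel] at h

/-- The cone is good. -/
theorem good_cone [CompleteSpace X] {C : ℝ} (hS : StarOne (fun x : X => ‖x‖) C) {N : X → ℝ}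
    (hN : EquivNorm N) {L : ℝ} (hL : 0 ≤ L) (y : X) : Good N (fun x => L * N (x - y)) L univ := by
  obtain ⟨a, b, ha, hab⟩ := hN.equiv
  have hb : 0 ≤ |b| := abs_nonneg b
  have hlip : ∀ x z, |N (x - y) - N (z - y)| ≤ |b| * ‖x - z‖ := by
    have h1 : ∀ x z, N (x - y) - N (z - y) ≤ |b| * ‖x - z‖ := fun x z => by
      have h2 := N_lip hN x z y
      have h3 := (hab (x - z)).2
      have h4 := mul_le_mul_of_nonneg_right (le_abs_self b) (norm_nonneg (x - z))
      linarith
    intro x z
    rw [abs_le]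
    have h2 := h1 x z
    have h3 := h1 z x
    rw [norm_sub_rev] at h3
    constructor <;> linarith
  have h1 : Good N (fun x => N (x - y)) 1 univ := by
    refine good_of_forall isOpen_univ fun η hη => ?_
    refine good_sigma hS hN hb hlip zero_le_one ?_ hη
    refine sigma_of_oneSided hN (fun x z => ?_) fun x κ hκ => ?_
    · rw [one_mul, abs_le]
      have h2 := N_lip hN x z y
      have h3 := N_lip hN z x y
      rw [hN.symm_sub z x] at h3
      constructor <;> linarith
    · obtain ⟨ξ, hξ1, hξ2⟩ := exists_norming hN (x - y)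
      refine ⟨ξ, Or.inl (Eventually.of_forall fun z => ?_)⟩
      have h2 := hξ1 (z - y)
      rw [one_mul] at h2
      have e : z - y = (z - x) + (x - y) := by abel
      have h3 : ξ (z - y) = ξ (z - x) + ξ (x - y) := by
        conv_lhs => rw [e]
        rw [map_add]
      have h4 : 0 ≤ κ * ‖z - x‖ := by positivity
      linarith
  have h2 := good_smul hN hL h1
  rwa [mul_one] at h2

end Pool.Agent.MP_85fd23_an.W
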