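import Pool.Agent.Lib.MP_85fd23_an_W.Cone

/-!
# MP_85fd23_an, project W: label sets

`Y e A m`: the vectors `∑_{γ ∈ A} q γ • e γ` with coefficients in a finite grid `grid m`.
-/

set_option autoImplicit false
set_option linter.unusedSectionVars false

open Filter Metric Set
open scoped Topology

namespace Pool.Agent.MP_85fd23_an.W

open Pool.Agent.MP_85fd23_an.B

variable {X : Type*} [NormedAddCommGroup X] [NormedSpace ℝ X] {Γ : Type*}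

/-- The grid of coefficients: integer multiples of `2^{-m}` of absolute value at most `m`. -/
def grid (m : ℕ) : Set ℝ := {t | ∃ i : ℤ, |i| ≤ m * 2 ^ m ∧ t = i / 2 ^ m}

theorem grid_finite (m : ℕ) : (grid m).Finite := by
  have h : (Set.Icc (-(m * 2 ^ m : ℤ)) (m * 2 ^ m)).Finite := Set.finite_Icc _ _
  refine (h.image fun i : ℤ => (i : ℝ) / 2 ^ m).subset ?_
  rintro t ⟨i, hi, rfl⟩
  exact ⟨i, abs_le.1 hi, rfl⟩

theorem zero_mem_grid (m : ℕ) : (0 : ℝ) ∈ grid m := ⟨0, by simp, by simp⟩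

theorem abs_le_of_mem_grid {m : ℕ} {t : ℝ} (ht : t ∈ grid m) : |t| ≤ m := by
  obtain ⟨i, hi, rfl⟩ := ht
  have h1 : (0 : ℝ) < 2 ^ m := by positivity
  rw [abs_div, abs_of_pos h1, div_le_iff₀ h1]
  have h2 : ((|i| : ℤ) : ℝ) ≤ ((m * 2 ^ m : ℤ) : ℝ) := by exact_mod_cast hi
  rw [Int.cast_abs] at h2
  push_cast at h2
  exact h2

theorem grid_mono {m n : ℕ} (h : m ≤ n) : grid m ⊆ grid n := by
  rintro t ⟨i, hi, rfl⟩
  refine ⟨i * 2 ^ (n - m), ?_, ?_⟩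
  · rw [abs_mul, abs_of_pos (by positivity : (0 : ℤ) < 2 ^ (n - m))]
    have h1 : (m : ℤ) * 2 ^ m * 2 ^ (n - m) ≤ n * 2 ^ n := by
      have e : (2 : ℤ) ^ m * 2 ^ (n - m) = 2 ^ n := by
        rw [← pow_add]
        congr 1
        omega
      rw [mul_assoc, e]
      exact mul_le_mul_of_nonneg_right (by exact_mod_cast h) (by positivity)
    exact (mul_le_mul_of_nonneg_right hi (by positivity)).trans h1
  · push_cast
    have e : (2 : ℝ) ^ n = 2 ^ m * 2 ^ (n - m) := by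
      rw [← pow_add]
      congr 1
      omega
    rw [e, mul_div_mul_right _ _ (by positivity)]

theorem exists_grid (t : ℝ) {δ : ℝ} (hδ : 0 < δ) : ∃ m₀ : ℕ, ∀ m, m₀ ≤ m → ∃ q ∈ grid m, |t - q| ≤ δ := by
  obtain ⟨m₁, hm₁⟩ := exists_nat_ge (|t| + 1)
  obtain ⟨m₂, hm₂⟩ := exists_pow_lt_of_lt_one hδ (show (1 / 2 : ℝ) < 1 by norm_num)
  refine ⟨max m₁ m₂, fun m hm => ?_⟩
  have h1 : m₁ ≤ m := (le_max_left _ _).trans hm
  have h2 : m₂ ≤ m := (le_max_right _ _).trans hm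
  have hp : (0 : ℝ) < 2 ^ m := by positivity
  refine ⟨(⌊t * 2 ^ m⌋ : ℝ) / 2 ^ m, ⟨⌊t * 2 ^ m⌋, ?_, rfl⟩, ?_⟩
  · have h3 : |t| + 1 ≤ (m : ℝ) := hm₁.trans (by exact_mod_cast h1)
    have h4 : (⌊t * 2 ^ m⌋ : ℝ) ≤ t * 2 ^ m := Int.floor_le _
    have h5 : t * 2 ^ m < ⌊t * 2 ^ m⌋ + 1 := Int.lt_floor_add_one _
    have h6 := abs_le.1 (le_refl |t|)
    have h7 : (1 : ℝ) ≤ 2 ^ m := one_le_pow₀ (by norm_num)
    have h8 : t * 2 ^ m ≤ |t| * 2 ^ m := mul_le_mul_of_nonneg_right h6.2 hp.le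
    have h9 : -(|t| * 2 ^ m) ≤ t * 2 ^ m := by
      have := mul_le_mul_of_nonneg_right h6.1 hp.le
      linarith
    have h10 : (|t| + 1) * 2 ^ m ≤ (m : ℝ) * 2 ^ m := mul_le_mul_of_nonneg_right h3 hp.le
    have h11 : (|t| + 1) * 2 ^ m = |t| * 2 ^ m + 2 ^ m := by ring
    rw [abs_le]
    constructor
    · have : ((-(m * 2 ^ m : ℤ) : ℤ) : ℝ) ≤ (⌊t * 2 ^ m⌋ : ℝ) := by
        push_cast
        linarith
      exact_mod_cast this
    · have : (⌊t * 2 ^ m⌋ : ℝ) ≤ (((m * 2 ^ m : ℤ) : ℤ) : ℝ) := by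
        push_cast
        linarith
      exact_mod_cast this
  · have h4 : (⌊t * 2 ^ m⌋ : ℝ) ≤ t * 2 ^ m := Int.floor_le _
    have h5 : t * 2 ^ m < ⌊t * 2 ^ m⌋ + 1 := Int.lt_floor_add_one _
    have e : t - (⌊t * 2 ^ m⌋ : ℝ) / 2 ^ m = (t * 2 ^ m - ⌊t * 2 ^ m⌋) / 2 ^ m := by
      field_simp
    rw [e, abs_div, abs_of_pos hp, abs_of_nonneg (by linarith), div_le_iff₀ hp]
    have h6 : (1 / 2 : ℝ) ^ m ≤ (1 / 2 : ℝ) ^ m₂ := pow_le_pow_of_le_one (by norm_num) (by norm_num) h2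
    have h7 : (1 / 2 : ℝ) ^ m * 2 ^ m = 1 := by
      rw [← mul_pow]
      norm_num
    have h8 : (1 / 2 : ℝ) ^ m * 2 ^ m ≤ δ * 2 ^ m :=
      mul_le_mul_of_nonneg_right (h6.trans hm₂.le) hp.le
    linarith

/-- The label sets. -/
def Y (e : Γ → X) (A : Finset Γ) (m : ℕ) : Set X :=
  {y | ∃ q : Γ → ℝ, (∀ γ, q γ ∈ grid m) ∧ y = ∑ γ ∈ A, q γ • e γ}

theorem Y_finite (e : Γ → X) (A : Finset Γ) (m : ℕ) : (Y e A m).Finite := by
  classical
  induction A using Finset.induction_on with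
  | empty =>
    refine (Set.finite_singleton (0 : X)).subset ?_
    rintro y ⟨q, -, rfl⟩
    simp
  | insert γ A hγ ih =>
    refine (Set.Finite.image2 (fun (t : ℝ) (y : X) => t • e γ + y) (grid_finite m) ih).subset ?_
    rintro y ⟨q, hq, rfl⟩
    exact ⟨q γ, hq γ, _, ⟨q, hq, rfl⟩, by rw [Finset.sum_insert hγ]⟩

theorem Y_nonempty (e : Γ → X) (A : Finset Γ) (m : ℕ) : (Y e A m).Nonempty :=
  ⟨_, fun _ => 0, fun _ => zero_mem_grid m, rfl⟩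

theorem Y_mono (e : Γ → X) {A A' : Finset Γ} (hA : A ⊆ A') {m m' : ℕ} (hm : m ≤ m') :
    Y e A m ⊆ Y e A' m' := by
  classical
  rintro y ⟨q, hq, rfl⟩
  refine ⟨fun γ => if γ ∈ A then q γ else 0, fun γ => ?_, ?_⟩
  · by_cases h : γ ∈ A
    · simp only [h, if_true]
      exact grid_mono hm (hq γ)
    · simp only [h, if_false]
      exact zero_mem_grid m'
  · rw [← Finset.sum_subset hA]
    · exact Finset.sum_congr rfl fun γ hγ => by simp only [hγ, if_true]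
    · intro γ _ hγ
      simp only [hγ, if_false, zero_smul]

/-- The labels are dense. -/
theorem Y_dense {e : Γ → X} (he : (Submodule.span ℝ (range e)).topologicalClosure = ⊤) (x : X)
    {δ : ℝ} (hδ : 0 < δ) : ∃ (A : Finset Γ) (m : ℕ), ∃ y ∈ Y e A m, ‖x - y‖ ≤ δ := by
  classical
  have h1 : x ∈ closure ((Submodule.span ℝ (range e) : Submodule ℝ X) : Set X) := by
    rw [← Submodule.topologicalClosure_coe, he]
    exact mem_univ x
  obtain ⟨y, hy, hxy⟩ := Metric.mem_closure_iff.1 h1 (δ / 2) (half_pos hδ)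
  obtain ⟨c, hc⟩ := (Finsupp.mem_span_range_iff_exists_finsupp (R := ℝ)).1 hy
  obtain ⟨M, hM⟩ : ∃ M : ℝ, M = ∑ γ ∈ c.support, ‖e γ‖ + 1 := ⟨_, rfl⟩
  have hM0 : 0 < M := by rw [hM]; positivity
  have hτ : 0 < δ / (2 * M) := by positivity
  choose m₀ hm₀ using fun γ => exists_grid (c γ) hτ
  obtain ⟨m, hm⟩ : ∃ m : ℕ, ∀ γ ∈ c.support, m₀ γ ≤ m :=
    ⟨c.support.sup m₀, fun γ hγ => Finset.le_sup hγ⟩
  have hq : ∀ γ, ∃ q ∈ grid m, γ ∈ c.support → |c γ - q| ≤ δ / (2 * M) := fun γ => by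
    by_cases h : γ ∈ c.support
    · obtain ⟨q, hq1, hq2⟩ := hm₀ γ m (hm γ h)
      exact ⟨q, hq1, fun _ => hq2⟩
    · exact ⟨0, zero_mem_grid m, fun h' => absurd h' h⟩
  choose q hq1 hq2 using hq
  refine ⟨c.support, m, _, ⟨q, hq1, rfl⟩, ?_⟩
  have h2 : y - ∑ γ ∈ c.support, q γ • e γ = ∑ γ ∈ c.support, (c γ - q γ) • e γ := by
    rw [← hc, Finsupp.sum, ← Finset.sum_sub_distrib]
    exact Finset.sum_congr rfl fun γ _ => by rw [sub_smul]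
  have h3 : ‖y - ∑ γ ∈ c.support, q γ • e γ‖ ≤ δ / (2 * M) * M := by
    rw [h2]
    refine (norm_sum_le _ _).trans ?_
    have h4 : ∀ γ ∈ c.support, ‖(c γ - q γ) • e γ‖ ≤ δ / (2 * M) * ‖e γ‖ := fun γ hγ => by
      rw [norm_smul, Real.norm_eq_abs]
      exact mul_le_mul_of_nonneg_right (hq2 γ hγ) (norm_nonneg _)
    refine (Finset.sum_le_sum h4).trans ?_
    rw [← Finset.mul_sum]
    refine mul_le_mul_of_nonneg_left ?_ hτ.le
    rw [hM]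
    linarith
  have h5 : δ / (2 * M) * M = δ / 2 := by field_simp
  rw [h5] at h3
  rw [dist_eq_norm] at hxy
  have h6 := norm_sub_le_norm_sub_add_norm_sub x y (∑ γ ∈ c.support, q γ • e γ)
  linarith

/-- The labels outside the root tend weakly to labels of the root. -/
theorem Y_lsc {N : X → ℝ} (hN : EquivNorm N) {e : Γ → X}
    (hc0 : ∀ φ : X →L[ℝ] ℝ, ∀ ε > 0, {γ | ε ≤ |φ (e γ)|}.Finite) {n m : ℕ} (A : ℕ → Finset Γ)
    (R : Finset Γ) (hA : ∀ k, (A k).card ≤ n) (hR : ∀ k, R ⊆ A k)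
    (hfin : ∀ γ ∉ R, {k | γ ∈ A k}.Finite) (x : X) {δ : ℝ} (hδ : 0 < δ) :
    ∀ᶠ k in atTop, ∀ y ∈ Y e (A k) m, ∃ y' ∈ Y e R m, N (x - y') ≤ N (x - y) + δ := by
  classical
  choose ξ hξ1 hξ2 using fun y' : X => exists_norming hN (x - y')
  obtain ⟨τ, hτ⟩ : ∃ τ : ℝ, τ = δ / (n * m + 1) := ⟨_, rfl⟩
  have hden : (0 : ℝ) < n * m + 1 := by positivity
  have hτ0 : 0 < τ := by rw [hτ]; positivity
  -- the bad indices
  obtain ⟨D, hD⟩ : ∃ D : Set Γ, D = ⋃ y' ∈ Y e R m, {γ | τ ≤ |ξ y' (e γ)|} := ⟨_, rfl⟩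
  have hDfin : D.Finite := by
    rw [hD]
    exact (Y_finite e R m).biUnion fun y' _ => hc0 (ξ y') τ hτ0
  have hbad : {k | ∃ γ ∈ D \ R, γ ∈ A k}.Finite := by
    have h1 : {k | ∃ γ ∈ D \ (R : Set Γ), γ ∈ A k} = ⋃ γ ∈ D \ (R : Set Γ), {k | γ ∈ A k} := by
      ext k
      simp
    have h2 : {k | ∃ γ ∈ D \ R, γ ∈ A k} = {k | ∃ γ ∈ D \ (R : Set Γ), γ ∈ A k} := rfl
    rw [h2, h1]
    exact (hDfin.subset sdiff_subset).biUnion fun γ hγ => hfin γ (by simpa using hγ.2)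
  have hev : ∀ᶠ k in atTop, k ∉ {k | ∃ γ ∈ D \ R, γ ∈ A k} := by
    rw [← Nat.cofinite_eq_atTop]
    exact hbad.eventually_cofinite_notMem
  filter_upwards [hev] with k hk
  rintro y ⟨q, hq, rfl⟩
  have hmem : ∑ γ ∈ R, q γ • e γ ∈ Y e R m := ⟨q, hq, rfl⟩
  refine ⟨_, hmem, ?_⟩
  obtain ⟨y', hy'⟩ : ∃ y' : X, y' = ∑ γ ∈ R, q γ • e γ := ⟨_, rfl⟩
  rw [← hy'] at hmem ⊢
  have hsplit : ∑ γ ∈ A k, q γ • e γ = ∑ γ ∈ A k \ R, q γ • e γ + y' := by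
    rw [hy', Finset.sum_sdiff (hR k)]
  have h1 := hξ1 y' (x - ∑ γ ∈ A k, q γ • e γ)
  rw [one_mul] at h1
  have h2 : ξ y' (x - ∑ γ ∈ A k, q γ • e γ) = N (x - y') - ∑ γ ∈ A k \ R, q γ * ξ y' (e γ) := by
    rw [← hξ2 y', hsplit]
    have e1 : x - (∑ γ ∈ A k \ R, q γ • e γ + y') = (x - y') - ∑ γ ∈ A k \ R, q γ • e γ := by abel
    rw [e1, map_sub, map_sum]
    congr 1
    exact Finset.sum_congr rfl fun γ _ => by rw [map_smul, smul_eq_mul]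
  have h3 : |∑ γ ∈ A k \ R, q γ * ξ y' (e γ)| ≤ δ := by
    have h4 : ∀ γ ∈ A k \ R, |q γ * ξ y' (e γ)| ≤ m * τ := fun γ hγ => by
      rw [abs_mul]
      have h5 : γ ∉ D := fun hγD => hk ⟨γ, ⟨hγD, (Finset.mem_sdiff.1 hγ).2⟩, (Finset.mem_sdiff.1 hγ).1⟩
      have h6 : ¬ τ ≤ |ξ y' (e γ)| := fun h => h5 (by
        rw [hD]
        exact mem_biUnion hmem h)
      push Not at h6
      exact mul_le_mul (abs_le_of_mem_grid (hq γ)) h6.le (abs_nonneg _) (by positivity)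
    refine (Finset.abs_sum_le_sum_abs _ _).trans ((Finset.sum_le_card_nsmul _ _ _ h4).trans ?_)
    have h7 : ((A k \ R).card : ℝ) ≤ n := by
      exact_mod_cast (Finset.card_le_card Finset.sdiff_subset).trans (hA k)
    rw [nsmul_eq_mul]
    have h8 : ((A k \ R).card : ℝ) * (m * τ) ≤ n * (m * τ) :=
      mul_le_mul_of_nonneg_right h7 (by positivity)
    have h9 : (n : ℝ) * (m * τ) ≤ δ := by
      rw [hτ, ← mul_assoc, ← mul_div_assoc, div_le_iff₀ hden]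
      nlinarith
    linarith
  have h10 := (abs_le.1 h3).2
  linarith

end Pool.Agent.MP_85fd23_an.W
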