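import Pool.Agent.Lib.MP_85fd23_an_B.Main

/-!
# MP_85fd23_an, project W: operations on good functions

Sums, multiples, restrictions, and the selection principle: a Lipschitz function which at every
point coincides with one of countably many good functions is good.
-/

set_option autoImplicit false

open Filter Metric Set
open scoped Topology

namespace Pool.Agent.MP_85fd23_an.W

open Pool.Agent.MP_85fd23_an.B

variable {X : Type*} [NormedAddCommGroup X] [NormedSpace ℝ X]

theorem PB.neg {N : X → ℝ} (hN : EquivNorm N) {s : ℝ} {φ : X →L[ℝ] ℝ} (h : PB N s φ) :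
    PB N s (-φ) := fun v => by
  have h1 := h (-v)
  rw [hN.neg, map_neg] at h1
  rw [neg_apply]
  exact h1

theorem good_add {N F G : X → ℝ} {s t : ℝ} {U : Set X} (hF : Good N F s U) (hG : Good N G t U) :
    Good N (fun x => F x + G x) (s + t) U := by
  refine ⟨hF.1, fun ε hε η hη => ?_⟩
  obtain ⟨f, f1, f2, f3⟩ := hF.2 (ε / 2) (half_pos hε) (η / 2) (half_pos hη)
  obtain ⟨g, g1, g2, g3⟩ := hG.2 (ε / 2) (half_pos hε) (η / 2) (half_pos hη)
  refine ⟨fun x => f x + g x, f1.add g1, fun x hx => ?_, fun x hx => ?_⟩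
  · have h1 := abs_le.1 (f2 x hx)
    have h2 := abs_le.1 (g2 x hx)
    rw [abs_le]
    constructor <;> linarith [h1.1, h1.2, h2.1, h2.2]
  · have hd1 : DifferentiableAt ℝ f x :=
      (f1.differentiableOn one_ne_zero).differentiableAt (hF.1.mem_nhds hx)
    have hd2 : DifferentiableAt ℝ g x :=
      (g1.differentiableOn one_ne_zero).differentiableAt (hF.1.mem_nhds hx)
    have e : fderiv ℝ (fun x => f x + g x) x = fderiv ℝ f x + fderiv ℝ g x :=
      fderiv_fun_add hd1 hd2
    rw [e]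
    have h := (f3 x hx).add (g3 x hx)
    have e2 : s + η / 2 + (t + η / 2) = s + t + η := by ring
    rwa [e2] at h

theorem good_neg {N F : X → ℝ} (hN : EquivNorm N) {s : ℝ} {U : Set X} (hF : Good N F s U) :
    Good N (fun x => -F x) s U := by
  refine ⟨hF.1, fun ε hε η hη => ?_⟩
  obtain ⟨f, f1, f2, f3⟩ := hF.2 ε hε η hη
  refine ⟨fun x => -f x, f1.neg, fun x hx => ?_, fun x hx => ?_⟩
  · have e : -f x - -F x = -(f x - F x) := by ring
    rw [e, abs_neg]
    exact f2 x hx
  · have e : fderiv ℝ (fun x => -f x) x = -fderiv ℝ f x := fderiv_fun_neg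
    rw [e]
    exact PB.neg hN (f3 x hx)

theorem good_smul {N F : X → ℝ} (hN : EquivNorm N) {s c : ℝ} (hc : 0 ≤ c) {U : Set X} (hF : Good N F s U) :
    Good N (fun x => c * F x) (c * s) U := by
  refine ⟨hF.1, fun ε hε η hη => ?_⟩
  obtain ⟨f, f1, f2, f3⟩ := hF.2 (ε / (c + 1)) (by positivity) (η / (c + 1)) (by positivity)
  have hc1 : 0 < c + 1 := by linarith
  have hle : ∀ t, 0 < t → c * (t / (c + 1)) ≤ t := fun t ht => by
    rw [← mul_div_assoc, div_le_iff₀ hc1]
    nlinarith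
  refine ⟨fun x => c * f x, contDiffOn_const.mul f1, fun x hx => ?_, fun x hx => ?_⟩
  · have e : c * f x - c * F x = c * (f x - F x) := by ring
    rw [e, abs_mul, abs_of_nonneg hc]
    exact (mul_le_mul_of_nonneg_left (f2 x hx) hc).trans (hle ε hε)
  · have hd1 : DifferentiableAt ℝ f x :=
      (f1.differentiableOn one_ne_zero).differentiableAt (hF.1.mem_nhds hx)
    have e : fderiv ℝ (fun x => c * f x) x = c • fderiv ℝ f x := fderiv_const_mul hd1 c
    rw [e]
    have h := (f3 x hx).smul hc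
    refine PB.mono hN h ?_
    have h4 := hle η hη
    rw [mul_add]
    linarith

theorem good_const {N : X → ℝ} (hN : EquivNorm N) (c : ℝ) {U : Set X} (hU : IsOpen U) :
    Good N (fun _ => c) 0 U := by
  refine ⟨hU, fun ε hε η hη => ⟨fun _ => c, contDiffOn_const, fun x _ => ?_, fun x _ => ?_⟩⟩
  · simpa using hε.le
  · have e : fderiv ℝ (fun _ : X => c) x = 0 := by simp
    rw [e]
    exact PB.mono hN (PB.zero N) (by linarith)

theorem good_mono {N F : X → ℝ} (hN : EquivNorm N) {s t : ℝ} (hst : s ≤ t) {U V : Set X}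
    (hV : IsOpen V) (hVU : V ⊆ U) (hF : Good N F s U) : Good N F t V := by
  refine ⟨hV, fun ε hε η hη => ?_⟩
  obtain ⟨f, f1, f2, f3⟩ := hF.2 ε hε η hη
  exact ⟨f, f1.mono hVU, fun x hx => f2 x (hVU hx), fun x hx =>
    PB.mono hN (f3 x (hVU hx)) (by linarith)⟩

theorem good_of_forall {N F : X → ℝ} {s : ℝ} {U : Set X} (hU : IsOpen U)
    (h : ∀ η > 0, Good N F (s + η) U) : Good N F s U := by
  refine ⟨hU, fun ε hε η hη => ?_⟩
  obtain ⟨f, f1, f2, f3⟩ := (h (η / 2) (half_pos hη)).2 ε hε (η / 2) (half_pos hη)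
  refine ⟨f, f1, f2, fun x hx => ?_⟩
  have h1 := f3 x hx
  rwa [add_assoc, add_halves] at h1

/-- A function which is uniformly close to good functions is good. -/
theorem good_of_close {N F : X → ℝ} {s : ℝ} {U : Set X} (hU : IsOpen U)
    (h : ∀ ε > 0, ∃ G : X → ℝ, Good N G s U ∧ ∀ x ∈ U, |G x - F x| ≤ ε) : Good N F s U := by
  refine ⟨hU, fun ε hε η hη => ?_⟩
  obtain ⟨G, hG, hGF⟩ := h (ε / 2) (half_pos hε)
  obtain ⟨f, f1, f2, f3⟩ := hG.2 (ε / 2) (half_pos hε) η hη
  refine ⟨f, f1, fun x hx => ?_, f3⟩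
  have h1 := abs_le.1 (f2 x hx)
  have h2 := abs_le.1 (hGF x hx)
  rw [abs_le]
  constructor <;> linarith [h1.1, h1.2, h2.1, h2.2]

/-- The selection principle. -/
theorem good_select [CompleteSpace X] {C : ℝ} (hS : StarOne (fun x : X => ‖x‖) C) {N F : X → ℝ}
    (hN : EquivNorm N) {s B : ℝ} (hB : 0 ≤ B) (hFB : ∀ x y, |F x - F y| ≤ B * ‖x - y‖)
    (f : ℕ → X → ℝ) (hfB : ∀ n, ∃ B' : ℝ, 0 ≤ B' ∧ ∀ x y, |f n x - f n y| ≤ B' * ‖x - y‖)
    (hf : ∀ n, Good N (f n) s univ) (hsel : ∀ x, ∃ n, F x = f n x) : Good N F s univ := by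
  obtain ⟨a, b, ha, hab⟩ := hN.equiv
  have hcont : ∀ (G : X → ℝ) (B' : ℝ), 0 ≤ B' → (∀ x y, |G x - G y| ≤ B' * ‖x - y‖) →
      Continuous G := by
    intro G B' hB' hG
    have : LipschitzWith (Real.toNNReal B') G := by
      refine LipschitzWith.of_dist_le_mul fun x y => ?_
      rw [Real.dist_eq, dist_eq_norm, Real.coe_toNNReal B' hB']
      exact hG x y
    exact this.continuous
  have hFc := hcont F B hB hFB
  refine good_univ hS hN ha (fun x => (hab x).1) hB hFB fun Z hZ hZn => ?_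
  have : Nonempty Z := hZn.to_subtype
  have : CompleteSpace Z := hZ.completeSpace_coe
  have hcl : ∀ n, IsClosed {z : Z | F z = f n z} := fun n => by
    obtain ⟨B', hB', hf'⟩ := hfB n
    exact isClosed_eq (hFc.comp continuous_subtype_val)
      ((hcont (f n) B' hB' hf').comp continuous_subtype_val)
  have hun : ⋃ n, {z : Z | F z = f n z} = univ := by
    rw [eq_univ_iff_forall]
    intro z
    obtain ⟨n, hn⟩ := hsel z
    exact mem_iUnion.2 ⟨n, hn⟩
  obtain ⟨n, z, hz⟩ := nonempty_interior_of_iUnion_of_closed hcl hun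
  obtain ⟨r, hr, hball⟩ := Metric.isOpen_iff.1 isOpen_interior z hz
  obtain ⟨B', hB', hf'⟩ := hfB n
  refine ⟨z, z.2, r, hr, f n, B', hB', hf',
    good_mono hN le_rfl isOpen_ball (subset_univ _) (hf n), fun x hx hxr => ?_⟩
  have h1 : (⟨x, hx⟩ : Z) ∈ ball z r := by
    rw [mem_ball, Subtype.dist_eq, dist_eq_norm]
    exact hxr
  have h2 : (⟨x, hx⟩ : Z) ∈ {z : Z | F z = f n z} := interior_subset (hball h1)
  exact h2.symm

end Pool.Agent.MP_85fd23_an.W
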