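import Pool.Agent.Lib.MP_85fd23_an_W.Major

/-!
# MP_85fd23_an, project W: the approximation theorem

Insertion: if decreasing sequences of good majorants converge pointwise to `F` and to `-F`, then
`sup_k min (V k, 3 δ - V' k)` is at every point a maximum of finitely many good functions and
differs from `F` by at most `3 δ`.
-/

set_option autoImplicit false
set_option linter.unusedSectionVars false

open Filter Metric Set
open scoped Topology

namespace Pool.Agent.MP_85fd23_an.W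

open Pool.Agent.MP_85fd23_an.B

variable {X : Type*} [NormedAddCommGroup X] [NormedSpace ℝ X] {Γ : Type*}

theorem exists_kappa (f : ℕ → X → ℝ) (h : ∀ x, ∃ K, ∀ k, K ≤ k → f k x ≤ f K x) :
    ∃ κ : X → ℕ, ∀ x k, f k x ≤ f (κ x) x := by
  have h1 : ∀ x, ∃ j, ∀ k, f k x ≤ f j x := fun x => by
    obtain ⟨K, hK⟩ := h x
    obtain ⟨j, -, hj⟩ := Finset.exists_max_image (Finset.range (K + 1)) (fun k => f k x)
      Finset.nonempty_range_add_one
    refine ⟨j, fun k => ?_⟩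
    rcases le_total k K with h2 | h2
    · exact hj k (Finset.mem_range.2 (by omega))
    · exact (hK k h2).trans (hj K (Finset.mem_range.2 (by omega)))
  choose κ hκ using h1
  exact ⟨κ, hκ⟩

theorem good_min [CompleteSpace X] {C : ℝ} (hS : StarOne (fun x : X => ‖x‖) C) {N F G : X → ℝ}
    (hN : EquivNorm N) {s B : ℝ} (hB : 0 ≤ B) (hFB : ∀ x y, |F x - F y| ≤ B * ‖x - y‖)
    (hGB : ∀ x y, |G x - G y| ≤ B * ‖x - y‖) (hF : Good N F s univ) (hG : Good N G s univ) :
    (∀ x y, |min (F x) (G x) - min (F y) (G y)| ≤ B * ‖x - y‖) ∧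
      Good N (fun x => min (F x) (G x)) s univ := by
  have hl : ∀ x y, |min (F x) (G x) - min (F y) (G y)| ≤ B * ‖x - y‖ := fun x y =>
    (abs_min_sub_min_le_max _ _ _ _).trans (max_le (hFB x y) (hGB x y))
  refine ⟨hl, good_select hS hN hB hl (fun n => if n = 0 then F else G) (fun n => ?_) (fun n => ?_)
    fun x => ?_⟩
  · by_cases hn : n = 0
    · simp only [hn, if_true]
      exact ⟨B, hB, hFB⟩
    · simp only [hn, if_false]
      exact ⟨B, hB, hGB⟩
  · by_cases hn : n = 0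
    · simp only [hn, if_true]
      exact hF
    · simp only [hn, if_false]
      exact hG
  · rcases le_total (F x) (G x) with h | h
    · exact ⟨0, by simp [h]⟩
    · exact ⟨1, by simp [h]⟩

/-- The insertion lemma. -/
theorem good_insert [CompleteSpace X] {C : ℝ} (hS : StarOne (fun x : X => ‖x‖) C) {N F : X → ℝ}
    (hN : EquivNorm N) {s B : ℝ} (hB : 0 ≤ B) {V W : ℕ → X → ℝ}
    (hVB : ∀ k x z, |V k x - V k z| ≤ B * ‖x - z‖) (hWB : ∀ k x z, |W k x - W k z| ≤ B * ‖x - z‖)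
    (hVg : ∀ k, Good N (V k) s univ) (hWg : ∀ k, Good N (W k) s univ)
    (hVm : ∀ k x, V (k + 1) x ≤ V k x) (hWm : ∀ k x, W (k + 1) x ≤ W k x)
    (hV : ∀ k x, F x ≤ V k x) (hW : ∀ k x, -F x ≤ W k x)
    (hVc : ∀ x, ∀ δ > 0, ∃ k, V k x ≤ F x + δ) (hWc : ∀ x, ∀ δ > 0, ∃ k, W k x ≤ -F x + δ) :
    Good N F s univ := by
  have hVa : ∀ x, Antitone fun k => V k x := fun x => antitone_nat_of_succ_le fun k => hVm k x
  have hWa : ∀ x, Antitone fun k => W k x := fun x => antitone_nat_of_succ_le fun k => hWm k x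
  refine good_of_close isOpen_univ fun ε hε => ?_
  obtain ⟨δ, hδ0, hδ⟩ : ∃ δ : ℝ, 0 < δ ∧ 3 * δ = ε := ⟨ε / 3, by positivity, by ring⟩
  have hW'B : ∀ k x z, |(3 * δ + -W k x) - (3 * δ + -W k z)| ≤ B * ‖x - z‖ := fun k x z => by
    have e1 : (3 * δ + -W k x) - (3 * δ + -W k z) = -(W k x - W k z) := by ring
    rw [e1, abs_neg]
    exact hWB k x z
  have hW'g : ∀ k, Good N (fun x => 3 * δ + -W k x) s univ := fun k => by
    have h1 := good_add (good_const hN (3 * δ) isOpen_univ) (good_neg hN (hWg k))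
    rwa [zero_add] at h1
  obtain ⟨f, hf⟩ : ∃ f : ℕ → X → ℝ, f = fun k x => min (V k x) (3 * δ + -W k x) := ⟨_, rfl⟩
  have hfx : ∀ k x, f k x = min (V k x) (3 * δ + -W k x) := fun k x => by rw [hf]
  have hfB : ∀ k x z, |f k x - f k z| ≤ B * ‖x - z‖ := fun k x z => by
    rw [hfx, hfx]
    exact (good_min hS hN hB (hVB k) (hW'B k) (hVg k) (hW'g k)).1 x z
  have hfg : ∀ k, Good N (f k) s univ := fun k => by
    rw [hf]
    exact (good_min hS hN hB (hVB k) (hW'B k) (hVg k) (hW'g k)).2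
  have hK : ∀ x, ∃ K, (∀ k, K ≤ k → f k x = V k x) := fun x => by
    obtain ⟨k₀, hk₀⟩ := hVc x δ hδ0
    obtain ⟨k₁, hk₁⟩ := hWc x δ hδ0
    refine ⟨max k₀ k₁, fun k hk => ?_⟩
    have h1 : V k x ≤ V k₀ x := hVa x ((le_max_left _ _).trans hk)
    have h2 : W k x ≤ W k₁ x := hWa x ((le_max_right _ _).trans hk)
    rw [hfx]
    exact min_eq_left (by linarith)
  obtain ⟨κ, hκ⟩ := exists_kappa f fun x => by
    obtain ⟨K, hK'⟩ := hK x
    refine ⟨K, fun k hk => ?_⟩
    rw [hK' k hk, hK' K le_rfl]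
    exact hVa x hk
  have hGB : ∀ x z, |f (κ x) x - f (κ z) z| ≤ B * ‖x - z‖ := fun x z => by
    have h1 := hκ z (κ x)
    have h2 := hκ x (κ z)
    have h3 := abs_le.1 (hfB (κ x) x z)
    have h4 := abs_le.1 (hfB (κ z) x z)
    rw [abs_le]
    constructor <;> linarith [h3.1, h3.2, h4.1, h4.2]
  refine ⟨fun x => f (κ x) x, good_select hS hN hB hGB f (fun n => ⟨B, hB, hfB n⟩) hfg
    (fun x => ⟨κ x, rfl⟩), fun x _ => ?_⟩
  obtain ⟨K, hK'⟩ := hK x
  have h1 := hκ x K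
  rw [hK' K le_rfl] at h1
  have h2 := hV K x
  have h3 : f (κ x) x ≤ 3 * δ + -W (κ x) x := by
    rw [hfx]
    exact min_le_right _ _
  have h4 := hW (κ x) x
  rw [abs_le]
  constructor <;> linarith

theorem good_wcg [CompleteSpace X] {C : ℝ} (hS : StarOne (fun x : X => ‖x‖) C) {N F : X → ℝ}
    (hN : EquivNorm N) {L : ℝ} (hL : 0 ≤ L) (hF : NLip N L F) {e : Γ → X}
    (hc0 : ∀ φ : X →L[ℝ] ℝ, ∀ ε > 0, {γ | ε ≤ |φ (e γ)|}.Finite)
    (he : (Submodule.span ℝ (range e)).topologicalClosure = ⊤) : Good N F (3 * L) univ := by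
  have hF' : NLip N L (fun x => -F x) := fun x y => by
    have e1 : -F x - -F y = -(F x - F y) := by ring
    rw [e1, abs_neg]
    exact hF x y
  obtain ⟨V, B, hB, hVB, hVg, hVm, hV, hVc⟩ := exists_major hS hN hL hF hc0 he
  obtain ⟨W, B', hB', hWB, hWg, hWm, hW, hWc⟩ := exists_major hS hN hL hF' hc0 he
  exact good_insert hS hN (hB.trans (le_max_left B B'))
    (fun k x z => (hVB k x z).trans (mul_le_mul_of_nonneg_right (le_max_left B B') (norm_nonneg _)))
    (fun k x z => (hWB k x z).trans (mul_le_mul_of_nonneg_right (le_max_right B B') (norm_nonneg _)))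
    hVg hWg hVm hWm hV hW hVc hWc

/-- Approximation of all Lipschitz functions, with the constant three. -/
theorem approx_wcg [CompleteSpace X] {C : ℝ} (hS : StarOne (fun x : X => ‖x‖) C) {N F : X → ℝ}
    (hN : EquivNorm N) {L : ℝ} (hL : 0 ≤ L) (hF : NLip N L F) {e : Γ → X}
    (hc0 : ∀ φ : X →L[ℝ] ℝ, ∀ ε > 0, {γ | ε ≤ |φ (e γ)|}.Finite)
    (he : (Submodule.span ℝ (range e)).topologicalClosure = ⊤) {ε η : ℝ} (hε : 0 < ε)
    (hη : 0 < η) : ∃ g : X → ℝ, ContDiff ℝ 1 g ∧ (∀ x, |g x - F x| ≤ ε) ∧ NLip N (3 * L + η) g := by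
  obtain ⟨g, h1, h2, h3⟩ := (good_wcg hS hN hL hF hc0 he).2 ε hε η hη
  rw [contDiffOn_univ] at h1
  exact ⟨g, h1, fun x => h2 x (mem_univ x), nlip_of_pb hN h1 fun x => h3 x (mem_univ x)⟩

end Pool.Agent.MP_85fd23_an.W
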