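import Pool.Agent.Lib.MP_85fd23_an_W.Label

/-!
# MP_85fd23_an, project W: good majorants

`F` is `L`-Lipschitz for `N`.  `dd A m x = min L N(x - y)`, `ll A m x = max (F y - L N(x - y))` over
the labels `y` in `Y e A m`, `hh = ll + 2 dd ≥ F`; `hh` is lower semicontinuous in `A`, hence its
minimum over the sets `A` with at most `k` elements is good.
-/

set_option autoImplicit false
set_option linter.unusedSectionVars false

open Filter Metric Set
open scoped Topology

namespace Pool.Agent.MP_85fd23_an.W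

open Pool.Agent.MP_85fd23_an.B

variable {X : Type*} [NormedAddCommGroup X] [NormedSpace ℝ X] {Γ : Type*}

theorem Yf_nonempty (e : Γ → X) (A : Finset Γ) (m : ℕ) : (Y_finite e A m).toFinset.Nonempty := by
  simpa using Y_nonempty e A m

/-- the distance to the labels -/
noncomputable def dd (e : Γ → X) (N : X → ℝ) (L : ℝ) (m : ℕ) (A : Finset Γ) (x : X) : ℝ :=
  (Y_finite e A m).toFinset.inf' (Yf_nonempty e A m) fun y => L * N (x - y)

/-- the lower extension of `F` from the labels -/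
noncomputable def ll (e : Γ → X) (N : X → ℝ) (L : ℝ) (F : X → ℝ) (m : ℕ) (A : Finset Γ) (x : X) : ℝ :=
  (Y_finite e A m).toFinset.sup' (Yf_nonempty e A m) fun y => F y - L * N (x - y)

/-- the majorant -/
noncomputable def hh (e : Γ → X) (N : X → ℝ) (L : ℝ) (F : X → ℝ) (m : ℕ) (A : Finset Γ) (x : X) : ℝ :=
  ll e N L F m A x + 2 * dd e N L m A x

variable {e : Γ → X} {N : X → ℝ} {L : ℝ} {F : X → ℝ} {m : ℕ} {A : Finset Γ}

theorem dd_le {y : X} (hy : y ∈ Y e A m) (x : X) : dd e N L m A x ≤ L * N (x - y) :=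
  Finset.inf'_le (f := fun y => L * N (x - y)) ((Y_finite e A m).mem_toFinset.2 hy)

theorem exists_dd (x : X) : ∃ y ∈ Y e A m, dd e N L m A x = L * N (x - y) := by
  obtain ⟨y, hy, h⟩ := (Y_finite e A m).toFinset.exists_mem_eq_inf' (Yf_nonempty e A m)
    fun y => L * N (x - y)
  exact ⟨y, (Y_finite e A m).mem_toFinset.1 hy, h⟩

theorem le_ll {y : X} (hy : y ∈ Y e A m) (x : X) : F y - L * N (x - y) ≤ ll e N L F m A x :=
  Finset.le_sup' (f := fun y => F y - L * N (x - y)) ((Y_finite e A m).mem_toFinset.2 hy)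

theorem exists_ll (x : X) : ∃ y ∈ Y e A m, ll e N L F m A x = F y - L * N (x - y) := by
  obtain ⟨y, hy, h⟩ := (Y_finite e A m).toFinset.exists_mem_eq_sup' (Yf_nonempty e A m)
    fun y => F y - L * N (x - y)
  exact ⟨y, (Y_finite e A m).mem_toFinset.1 hy, h⟩

theorem le_hh (hN : EquivNorm N) (hF : NLip N L F) (x : X) : F x ≤ hh e N L F m A x := by
  obtain ⟨y, hy, h⟩ := exists_dd (e := e) (N := N) (L := L) (m := m) (A := A) x
  have h1 := le_ll (N := N) (L := L) (F := F) hy x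
  have h2 := (abs_le.1 (hF x y)).2
  rw [hh, h]
  linarith

theorem hh_le (hN : EquivNorm N) (hF : NLip N L F) (x : X) :
    hh e N L F m A x ≤ F x + 2 * dd e N L m A x := by
  obtain ⟨y, hy, h⟩ := exists_ll (e := e) (N := N) (L := L) (F := F) (m := m) (A := A) x
  have h2 := (abs_le.1 (hF x y)).1
  rw [hh, h]
  linarith

theorem cone_lip (hN : EquivNorm N) {b : ℝ} (hb : ∀ x, N x ≤ b * ‖x‖) (hL : 0 ≤ L) (x z y : X) :
    L * N (x - y) ≤ L * N (z - y) + L * b * ‖x - z‖ := by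
  have h1 := N_lip hN x z y
  have h2 := hb (x - z)
  have h3 := mul_le_mul_of_nonneg_left (h1.trans (add_le_add_left h2 _)) hL
  linarith

theorem dd_lip (hN : EquivNorm N) {b : ℝ} (hb : ∀ x, N x ≤ b * ‖x‖) (hL : 0 ≤ L) (x z : X) :
    |dd e N L m A x - dd e N L m A z| ≤ L * b * ‖x - z‖ := by
  have h1 : ∀ x z, dd e N L m A x - dd e N L m A z ≤ L * b * ‖x - z‖ := fun x z => by
    obtain ⟨y, hy, h⟩ := exists_dd (e := e) (N := N) (L := L) (m := m) (A := A) z
    have h2 := dd_le (N := N) (L := L) hy x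
    have h3 := cone_lip hN hb hL x z y
    linarith
  rw [abs_le]
  have h2 := h1 x z
  have h3 := h1 z x
  rw [norm_sub_rev] at h3
  constructor <;> linarith

theorem ll_lip (hN : EquivNorm N) {b : ℝ} (hb : ∀ x, N x ≤ b * ‖x‖) (hL : 0 ≤ L) (x z : X) :
    |ll e N L F m A x - ll e N L F m A z| ≤ L * b * ‖x - z‖ := by
  have h1 : ∀ x z, ll e N L F m A x - ll e N L F m A z ≤ L * b * ‖x - z‖ := fun x z => by
    obtain ⟨y, hy, h⟩ := exists_ll (e := e) (N := N) (L := L) (F := F) (m := m) (A := A) x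
    have h2 := le_ll (N := N) (L := L) (F := F) hy z
    have h3 := cone_lip hN hb hL z x y
    rw [norm_sub_rev] at h3
    linarith
  rw [abs_le]
  have h2 := h1 x z
  have h3 := h1 z x
  rw [norm_sub_rev] at h3
  constructor <;> linarith

theorem hh_lip (hN : EquivNorm N) {b : ℝ} (hb : ∀ x, N x ≤ b * ‖x‖) (hL : 0 ≤ L) (x z : X) :
    |hh e N L F m A x - hh e N L F m A z| ≤ 3 * (L * b) * ‖x - z‖ := by
  have h1 := abs_le.1 (dd_lip (e := e) (A := A) (m := m) hN hb hL x z)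
  have h2 := abs_le.1 (ll_lip (e := e) (A := A) (m := m) (F := F) hN hb hL x z)
  rw [hh, hh, abs_le]
  constructor <;> linarith [h1.1, h1.2, h2.1, h2.2]

theorem good_dd [CompleteSpace X] {C : ℝ} (hS : StarOne (fun x : X => ‖x‖) C) (hN : EquivNorm N)
    {b : ℝ} (hb0 : 0 ≤ b) (hb : ∀ x, N x ≤ b * ‖x‖) (hL : 0 ≤ L) :
    Good N (dd e N L m A) L univ := by
  obtain ⟨f, hf⟩ := (Y_finite e A m).countable.exists_eq_range (Y_nonempty e A m)
  refine good_select hS hN (B := L * b) (by positivity) (dd_lip hN hb hL)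
    (fun k x => L * N (x - f k)) (fun k => ⟨L * b, by positivity, fun x z => ?_⟩)
    (fun k => good_cone hS hN hL (f k)) fun x => ?_
  · have h1 := cone_lip hN hb hL x z (f k)
    have h2 := cone_lip hN hb hL z x (f k)
    rw [norm_sub_rev] at h2
    rw [abs_le]
    constructor <;> linarith
  · obtain ⟨y, hy, h⟩ := exists_dd (e := e) (N := N) (L := L) (m := m) (A := A) x
    rw [hf] at hy
    obtain ⟨k, rfl⟩ := hy
    exact ⟨k, h⟩

theorem good_ll [CompleteSpace X] {C : ℝ} (hS : StarOne (fun x : X => ‖x‖) C) (hN : EquivNorm N)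
    {b : ℝ} (hb0 : 0 ≤ b) (hb : ∀ x, N x ≤ b * ‖x‖) (hL : 0 ≤ L) :
    Good N (ll e N L F m A) L univ := by
  obtain ⟨f, hf⟩ := (Y_finite e A m).countable.exists_eq_range (Y_nonempty e A m)
  refine good_select hS hN (B := L * b) (by positivity) (ll_lip hN hb hL)
    (fun k x => F (f k) + -(L * N (x - f k))) (fun k => ⟨L * b, by positivity, fun x z => ?_⟩)
    (fun k => ?_) fun x => ?_
  · have h1 := cone_lip hN hb hL x z (f k)
    have h2 := cone_lip hN hb hL z x (f k)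
    rw [norm_sub_rev] at h2
    rw [abs_le]
    constructor <;> linarith
  · have h1 := good_add (good_const hN (F (f k)) isOpen_univ) (good_neg hN (good_cone hS hN hL (f k)))
    rwa [zero_add] at h1
  · obtain ⟨y, hy, h⟩ := exists_ll (e := e) (N := N) (L := L) (F := F) (m := m) (A := A) x
    rw [hf] at hy
    obtain ⟨k, rfl⟩ := hy
    exact ⟨k, by rw [h, sub_eq_add_neg]⟩

theorem good_hh [CompleteSpace X] {C : ℝ} (hS : StarOne (fun x : X => ‖x‖) C) (hN : EquivNorm N)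
    {b : ℝ} (hb0 : 0 ≤ b) (hb : ∀ x, N x ≤ b * ‖x‖) (hL : 0 ≤ L) :
    Good N (hh e N L F m A) (3 * L) univ := by
  have h1 := good_add (good_ll (e := e) (F := F) (m := m) (A := A) hS hN hb0 hb hL)
    (good_smul hN (zero_le_two) (good_dd (e := e) (m := m) (A := A) hS hN hb0 hb hL))
  have e1 : L + 2 * L = 3 * L := by ring
  rw [e1] at h1
  exact h1

theorem lsc_hh (hN : EquivNorm N) (hL : 0 ≤ L)
    (hc0 : ∀ φ : X →L[ℝ] ℝ, ∀ ε > 0, {γ | ε ≤ |φ (e γ)|}.Finite) (n : ℕ) :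
    Lsc n (hh e N L F m) := by
  intro A R hA hR hfin x δ hδ
  obtain ⟨τ, hτ⟩ : ∃ τ : ℝ, τ = δ / (2 * (L + 1)) := ⟨_, rfl⟩
  have hτ0 : 0 < τ := by rw [hτ]; positivity
  filter_upwards [Y_lsc hN hc0 (m := m) A R hA hR hfin x hτ0] with k hk
  have h1 : ll e N L F m R x ≤ ll e N L F m (A k) x := by
    obtain ⟨y, hy, h⟩ := exists_ll (e := e) (N := N) (L := L) (F := F) (m := m) (A := R) x
    rw [h]
    exact le_ll (Y_mono e (hR k) le_rfl hy) x
  have h2 : dd e N L m R x ≤ dd e N L m (A k) x + δ / 2 := by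
    obtain ⟨y, hy, h⟩ := exists_dd (e := e) (N := N) (L := L) (m := m) (A := A k) x
    obtain ⟨y', hy', h3⟩ := hk y hy
    have h4 := dd_le (N := N) (L := L) hy' x
    have h5 := mul_le_mul_of_nonneg_left h3 hL
    have h6 : L * τ ≤ δ / 2 := by
      have h7 : (L + 1) * τ = δ / 2 := by
        rw [hτ]
        field_simp
      linarith
    rw [h]
    linarith
  rw [hh, hh]
  linarith

/-- the minimum over the sets `A` with at most `k` elements -/
noncomputable def vm (e : Γ → X) (N : X → ℝ) (L : ℝ) (F : X → ℝ) (k m : ℕ) (x : X) : ℝ :=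
  ⨅ A : {A : Finset Γ // A.card ≤ k}, hh e N L F m A.1 x

theorem vm_bdd (hN : EquivNorm N) (hF : NLip N L F) (k m : ℕ) (x : X) :
    BddBelow (range fun A : {A : Finset Γ // A.card ≤ k} => hh e N L F m A.1 x) := by
  refine ⟨F x, ?_⟩
  rintro _ ⟨A, rfl⟩
  exact le_hh hN hF x

theorem vm_le (hN : EquivNorm N) (hF : NLip N L F) {k : ℕ} (m : ℕ) {A : Finset Γ} (hA : A.card ≤ k)
    (x : X) : vm e N L F k m x ≤ hh e N L F m A x :=
  ciInf_le (vm_bdd hN hF k m x) (⟨A, hA⟩ : {A : Finset Γ // A.card ≤ k})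

theorem exists_vm (k m : ℕ) (x : X) {δ : ℝ} (hδ : 0 < δ) :
    ∃ A : Finset Γ, A.card ≤ k ∧ hh e N L F m A x ≤ vm e N L F k m x + δ := by
  have : Nonempty {A : Finset Γ // A.card ≤ k} := ⟨⟨∅, by simp⟩⟩
  obtain ⟨A, hA⟩ := exists_lt_of_ciInf_lt (f := fun A : {A : Finset Γ // A.card ≤ k} =>
    hh e N L F m A.1 x) (a := vm e N L F k m x + δ) (by
      rw [vm] at *
      linarith)
  exact ⟨A.1, A.2, hA.le⟩

theorem le_vm (hN : EquivNorm N) (hF : NLip N L F) (k m : ℕ) (x : X) : F x ≤ vm e N L F k m x := by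
  refine le_of_forall_pos_le_add fun δ hδ => ?_
  obtain ⟨A, hA, h⟩ := exists_vm (e := e) (N := N) (L := L) (F := F) k m x hδ
  exact (le_hh hN hF x).trans h

theorem vm_lip (hN : EquivNorm N) {b : ℝ} (hb : ∀ x, N x ≤ b * ‖x‖) (hL : 0 ≤ L)
    (hF : NLip N L F) (k m : ℕ) (x z : X) :
    |vm e N L F k m x - vm e N L F k m z| ≤ 3 * (L * b) * ‖x - z‖ := by
  have h1 : ∀ x z, vm e N L F k m x - vm e N L F k m z ≤ 3 * (L * b) * ‖x - z‖ := fun x z => by
    refine le_of_forall_pos_le_add fun δ hδ => ?_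
    obtain ⟨A, hA, h⟩ := exists_vm (e := e) (N := N) (L := L) (F := F) k m z hδ
    have h2 := vm_le (e := e) hN hF m hA x
    have h3 := (abs_le.1 (hh_lip (e := e) (F := F) (m := m) (A := A) hN hb hL x z)).2
    linarith
  rw [abs_le]
  have h2 := h1 x z
  have h3 := h1 z x
  rw [norm_sub_rev] at h3
  constructor <;> linarith

theorem good_vm [CompleteSpace X] {C : ℝ} (hS : StarOne (fun x : X => ‖x‖) C) (hN : EquivNorm N)
    {b : ℝ} (hb0 : 0 ≤ b) (hb : ∀ x, N x ≤ b * ‖x‖) (hL : 0 ≤ L) (hF : NLip N L F)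
    (hc0 : ∀ φ : X →L[ℝ] ℝ, ∀ ε > 0, {γ | ε ≤ |φ (e γ)|}.Finite) (k m : ℕ) :
    Good N (vm e N L F k m) (3 * L) univ :=
  good_scat hS hN (n := k) (h := hh e N L F m) (B := 3 * (L * b)) (by positivity)
    (fun A x z => hh_lip hN hb hL x z) (fun A _ => good_hh hS hN hb0 hb hL) (lsc_hh hN hL hc0 k)
    (vm_lip hN hb hL hF k m) (fun A hA x => vm_le hN hF m hA x) fun x δ hδ => exists_vm k m x hδ

/-- A decreasing sequence of good majorants which converges pointwise. -/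
theorem exists_major [CompleteSpace X] {C : ℝ} (hS : StarOne (fun x : X => ‖x‖) C)
    (hN : EquivNorm N) (hL : 0 ≤ L) (hF : NLip N L F)
    (hc0 : ∀ φ : X →L[ℝ] ℝ, ∀ ε > 0, {γ | ε ≤ |φ (e γ)|}.Finite)
    (he : (Submodule.span ℝ (range e)).topologicalClosure = ⊤) :
    ∃ (V : ℕ → X → ℝ) (B : ℝ), 0 ≤ B ∧ (∀ k x z, |V k x - V k z| ≤ B * ‖x - z‖) ∧
      (∀ k, Good N (V k) (3 * L) univ) ∧ (∀ k x, V (k + 1) x ≤ V k x) ∧ (∀ k x, F x ≤ V k x) ∧
      ∀ x, ∀ δ > 0, ∃ k, V k x ≤ F x + δ := by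
  obtain ⟨a, b, ha, hab⟩ := hN.equiv
  have hb : ∀ x, N x ≤ |b| * ‖x‖ := fun x =>
    (hab x).2.trans (mul_le_mul_of_nonneg_right (le_abs_self b) (norm_nonneg x))
  have hb0 : 0 ≤ |b| := abs_nonneg b
  obtain ⟨V, hV⟩ : ∃ V : ℕ → X → ℝ, V = fun k x => (Finset.range (k + 1)).inf'
    Finset.nonempty_range_add_one fun m => vm e N L F k m x := ⟨_, rfl⟩
  have hV1 : ∀ k m x, m ≤ k → V k x ≤ vm e N L F k m x := fun k m x hm => by
    rw [hV]
    exact Finset.inf'_le (f := fun m => vm e N L F k m x) (Finset.mem_range.2 (by omega))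
  have hV2 : ∀ k x, ∃ m, m ≤ k ∧ V k x = vm e N L F k m x := fun k x => by
    obtain ⟨m, hm, h⟩ := (Finset.range (k + 1)).exists_mem_eq_inf' Finset.nonempty_range_add_one
      fun m => vm e N L F k m x
    refine ⟨m, by have := Finset.mem_range.1 hm; omega, ?_⟩
    rw [hV]
    exact h
  have hVB : ∀ k x z, |V k x - V k z| ≤ 3 * (L * |b|) * ‖x - z‖ := by
    have h1 : ∀ k x z, V k x - V k z ≤ 3 * (L * |b|) * ‖x - z‖ := fun k x z => by
      obtain ⟨m, hm, h⟩ := hV2 k z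
      have h2 := hV1 k m x hm
      have h3 := (abs_le.1 (vm_lip (e := e) hN hb hL hF k m x z)).2
      rw [h]
      linarith
    intro k x z
    rw [abs_le]
    have h2 := h1 k x z
    have h3 := h1 k z x
    rw [norm_sub_rev] at h3
    constructor <;> linarith
  refine ⟨V, 3 * (L * |b|), by positivity, hVB, fun k => ?_, fun k x => ?_, fun k x => ?_,
    fun x δ hδ => ?_⟩
  · refine good_select hS hN (by positivity) (hVB k) (fun m => vm e N L F k m)
      (fun m => ⟨3 * (L * |b|), by positivity, vm_lip hN hb hL hF k m⟩)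
      (fun m => good_vm hS hN hb0 hb hL hF hc0 k m) fun x => ?_
    obtain ⟨m, -, h⟩ := hV2 k x
    exact ⟨m, h⟩
  · obtain ⟨m, hm, h⟩ := hV2 k x
    rw [h]
    refine (hV1 (k + 1) m x (by omega)).trans ?_
    refine le_of_forall_pos_le_add fun δ hδ => ?_
    obtain ⟨A, hA, h'⟩ := exists_vm (e := e) (N := N) (L := L) (F := F) k m x hδ
    exact (vm_le hN hF m (by omega) x).trans h'
  · obtain ⟨m, hm, h⟩ := hV2 k x
    rw [h]
    exact le_vm hN hF k m x
  · obtain ⟨τ, hτ⟩ : ∃ τ : ℝ, τ = δ / (2 * (L * |b|) + 1) := ⟨_, rfl⟩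
    have hτ0 : 0 < τ := by rw [hτ]; positivity
    obtain ⟨A, m, y, hy, hxy⟩ := Y_dense he x hτ0
    refine ⟨max A.card m, ?_⟩
    have h1 := hV1 (max A.card m) m x (le_max_right _ _)
    have h2 := vm_le (e := e) hN hF m (le_max_left A.card m) x
    have h3 := hh_le (e := e) (m := m) (A := A) hN hF x
    have h4 := dd_le (N := N) (L := L) hy x
    have h5 : L * N (x - y) ≤ L * (|b| * τ) :=
      mul_le_mul_of_nonneg_left ((hb _).trans (mul_le_mul_of_nonneg_left hxy hb0)) hL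
    have h6 : (2 * (L * |b|) + 1) * τ = δ := by
      rw [hτ]
      field_simp
    have h7 : 2 * (L * (|b| * τ)) ≤ δ := by nlinarith
    linarith

end Pool.Agent.MP_85fd23_an.W
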