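import Pool.Agent.Lib.MP_85fd23_an_W.Lat

/-!
# MP_85fd23_an, project W: minima over scattered families

`h A`, `A` a finite subset of `Γ` with at most `n` elements, good functions, such that
`h R x ≤ liminf h (A k) x` if the sets `A k` contain `R` and every index outside `R` lies in finitely
many of them.  Then the minimum over `A` is good.
-/

set_option autoImplicit false
set_option linter.unusedSectionVars false

open Filter Metric Set
open scoped Topology

namespace Pool.Agent.MP_85fd23_an.W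

open Pool.Agent.MP_85fd23_an.B

variable {X : Type*} [NormedAddCommGroup X] [NormedSpace ℝ X] {Γ : Type*}

/-- A subsequence with a root. -/
theorem exists_root (n : ℕ) (A : ℕ → Finset Γ) (hA : ∀ k, (A k).card ≤ n) :
    ∃ (σ : ℕ → ℕ) (R : Finset Γ), StrictMono σ ∧ (∀ k, R ⊆ A (σ k)) ∧
      ∀ γ ∉ R, {k | γ ∈ A (σ k)}.Finite := by
  classical
  obtain ⟨P, hP⟩ : ∃ P : ℕ → Prop, P = fun m => ∃ R : Finset Γ, R.card = m ∧ {k | R ⊆ A k}.Infinite :=
    ⟨_, rfl⟩
  have h0 : P 0 := by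
    rw [hP]
    refine ⟨∅, rfl, ?_⟩
    have : {k | (∅ : Finset Γ) ⊆ A k} = univ := by ext; simp
    rw [this]
    exact infinite_univ
  have hle : ∀ m, P m → m ≤ n := by
    intro m hm
    rw [hP] at hm
    obtain ⟨R, rfl, hR⟩ := hm
    obtain ⟨k, hk⟩ := hR.nonempty
    exact (Finset.card_le_card hk).trans (hA k)
  obtain ⟨m, hm, hmax⟩ : ∃ m, P m ∧ ∀ m', P m' → m' ≤ m := by
    have hfin : {m | P m}.Finite := (Set.finite_le_nat n).subset fun m hm => hle m hm
    obtain ⟨m, hm, hmx⟩ := hfin.exists_maximal ⟨0, h0⟩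
    refine ⟨m, hm, fun m' hm' => ?_⟩
    by_contra hlt
    push Not at hlt
    exact absurd (hmx hm' hlt.le) (not_le.2 hlt)
  rw [hP] at hm
  obtain ⟨R, hRm, hR⟩ := hm
  refine ⟨Nat.nth (fun k => R ⊆ A k), R, Nat.nth_strictMono hR, fun k => ?_, fun γ hγ => ?_⟩
  · exact Nat.nth_mem_of_infinite hR k
  · by_contra hinf
    have hinf' : {k | γ ∈ A (Nat.nth (fun k => R ⊆ A k) k)}.Infinite := hinf
    have h1 : P (m + 1) := by
      rw [hP]
      refine ⟨insert γ R, by rw [Finset.card_insert_of_notMem hγ, hRm], ?_⟩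
      refine (hinf'.image ((Nat.nth_strictMono hR).injective.injOn)).mono ?_
      rintro _ ⟨k, hk, rfl⟩
      have h2 : R ⊆ A (Nat.nth (fun k => R ⊆ A k) k) := Nat.nth_mem_of_infinite hR k
      exact Finset.insert_subset hk h2
    have := hmax _ h1
    omega

/-- The lower semicontinuity of a family of functions in the index. -/
def Lsc (n : ℕ) (h : Finset Γ → X → ℝ) : Prop :=
  ∀ (A : ℕ → Finset Γ) (R : Finset Γ), (∀ k, (A k).card ≤ n) → (∀ k, R ⊆ A k) →
    (∀ γ ∉ R, {k | γ ∈ A k}.Finite) → ∀ x, ∀ δ > 0, ∀ᶠ k in atTop, h R x ≤ h (A k) x + δ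

/-- The minimum is attained. -/
theorem Lsc.attained {n : ℕ} {h : Finset Γ → X → ℝ} (hl : Lsc n h) {v : X → ℝ}
    (hv1 : ∀ A : Finset Γ, A.card ≤ n → ∀ x, v x ≤ h A x)
    (hv2 : ∀ x, ∀ δ > 0, ∃ A : Finset Γ, A.card ≤ n ∧ h A x ≤ v x + δ) (x : X) :
    ∃ A : Finset Γ, A.card ≤ n ∧ h A x = v x := by
  choose A hA1 hA2 using fun k : ℕ => hv2 x (1 / ((k : ℝ) + 1)) (by positivity)
  obtain ⟨σ, R, hσ, hR, hfin⟩ := exists_root n A hA1
  have hRn : R.card ≤ n := (Finset.card_le_card (hR 0)).trans (hA1 _)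
  refine ⟨R, hRn, le_antisymm ?_ (hv1 R hRn x)⟩
  refine le_of_forall_pos_le_add fun δ hδ => ?_
  have h1 := hl (fun k => A (σ k)) R (fun k => hA1 _) hR hfin x (δ / 2) (half_pos hδ)
  have h2 : ∀ᶠ k : ℕ in atTop, 1 / ((k : ℝ) + 1) < δ / 2 :=
    tendsto_one_div_add_atTop_nhds_zero_nat.eventually_lt_const (half_pos hδ)
  obtain ⟨k, hk1, hk2⟩ := (h1.and (hσ.tendsto_atTop.eventually h2)).exists
  have h3 := hA2 (σ k)
  linarith

/-- The minimum is good. -/
theorem good_scat [CompleteSpace X] {C : ℝ} (hS : StarOne (fun x : X => ‖x‖) C) {N : X → ℝ}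
    (hN : EquivNorm N) {s B : ℝ} (hB : 0 ≤ B) {n : ℕ} {h : Finset Γ → X → ℝ}
    (hhB : ∀ A x y, |h A x - h A y| ≤ B * ‖x - y‖)
    (hg : ∀ A : Finset Γ, A.card ≤ n → Good N (h A) s univ) (hl : Lsc n h) {v : X → ℝ}
    (hvB : ∀ x y, |v x - v y| ≤ B * ‖x - y‖)
    (hv1 : ∀ A : Finset Γ, A.card ≤ n → ∀ x, v x ≤ h A x)
    (hv2 : ∀ x, ∀ δ > 0, ∃ A : Finset Γ, A.card ≤ n ∧ h A x ≤ v x + δ) : Good N v s univ := by
  classical
  obtain ⟨a, b, ha, hab⟩ := hN.equiv
  have hatt := hl.attained hv1 hv2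
  -- minimal cardinality of a minimiser
  have hex : ∀ x, ∃ m, ∃ A : Finset Γ, A.card = m ∧ A.card ≤ n ∧ h A x = v x := fun x => by
    obtain ⟨A, h1, h2⟩ := hatt x
    exact ⟨_, A, rfl, h1, h2⟩
  obtain ⟨mn, hmn⟩ : ∃ mn : X → ℕ, mn = fun x => Nat.find (hex x) := ⟨_, rfl⟩
  have hmn1 : ∀ x, ∃ A : Finset Γ, A.card = mn x ∧ A.card ≤ n ∧ h A x = v x := fun x => by
    rw [hmn]; exact Nat.find_spec (hex x)
  have hmn2 : ∀ x (A : Finset Γ), A.card ≤ n → h A x = v x → mn x ≤ A.card := fun x A h1 h2 => by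
    rw [hmn]; exact Nat.find_min' (hex x) ⟨A, rfl, h1, h2⟩
  refine good_univ hS hN ha (fun x => (hab x).1) hB hvB fun Z hZ hZn => ?_
  -- a point of `Z` where it is maximal
  obtain ⟨x₀, hx₀, hmax⟩ : ∃ x₀ ∈ Z, ∀ x ∈ Z, mn x ≤ mn x₀ := by
    have hfin : (mn '' Z).Finite := (Set.finite_le_nat n).subset (by
      rintro _ ⟨x, -, rfl⟩
      obtain ⟨A, h1, h2, -⟩ := hmn1 x
      show mn x ≤ n
      omega)
    obtain ⟨_, ⟨x₀, hx₀, rfl⟩, hm⟩ := hfin.exists_maximal (hZn.image mn)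
    refine ⟨x₀, hx₀, fun x hx => ?_⟩
    by_contra hlt
    push Not at hlt
    exact absurd (hm ⟨x, hx, rfl⟩ hlt.le) (not_le.2 hlt)
  -- the minimal minimisers at `x₀`
  obtain ⟨T, hT⟩ : ∃ T : Set (Finset Γ), T = {A | A.card = mn x₀ ∧ h A x₀ = v x₀} := ⟨_, rfl⟩
  have hTm : ∀ A ∈ T, A.card = mn x₀ ∧ h A x₀ = v x₀ := fun A hA => by
    rw [hT] at hA
    exact hA
  have hcardT : mn x₀ ≤ n := by
    obtain ⟨A, h1, h2, -⟩ := hmn1 x₀
    omega
  -- if minimisers converge to `R` at points converging to `x₀`, then `R` is in `T`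
  have key : ∀ (A : ℕ → Finset Γ) (x : ℕ → X), (∀ k, x k ∈ Z) → Tendsto x atTop (𝓝 x₀) →
      (∀ k, (A k).card = mn (x k) ∧ h (A k) (x k) = v (x k)) →
      ∃ σ : ℕ → ℕ, StrictMono σ ∧ ∀ k, A (σ k) ∈ T ∧ A (σ k) = A (σ 0) := by
    intro A x hxZ hx hA
    have hAn : ∀ k, (A k).card ≤ n := fun k => by
      rw [(hA k).1]; exact (hmax _ (hxZ k)).trans hcardT
    obtain ⟨σ, R, hσ, hR, hfin⟩ := exists_root n A hAn
    have hRn : R.card ≤ n := (Finset.card_le_card (hR 0)).trans (hAn _)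
    have hRv : h R x₀ = v x₀ := by
      refine le_antisymm ?_ (hv1 R hRn x₀)
      refine le_of_forall_pos_le_add fun δ hδ => ?_
      have h1 := hl (fun k => A (σ k)) R (fun k => hAn _) hR hfin x₀ (δ / 2) (half_pos hδ)
      have h2 : Tendsto (fun k => 2 * B * ‖x (σ k) - x₀‖) atTop (𝓝 0) := by
        have h3 : Tendsto (fun k => ‖x k - x₀‖) atTop (𝓝 0) := tendsto_iff_norm_sub_tendsto_zero.1 hx
        simpa using (h3.comp hσ.tendsto_atTop).const_mul (2 * B)
      obtain ⟨k, hk1, hk2⟩ := (h1.and (h2.eventually_lt_const (half_pos hδ))).exists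
      have h4 := abs_le.1 (hhB (A (σ k)) (x (σ k)) x₀)
      have h5 := abs_le.1 (hvB (x (σ k)) x₀)
      have h6 := (hA (σ k)).2
      linarith [h4.1, h5.2]
    have h7 : mn x₀ ≤ R.card := hmn2 x₀ R hRn hRv
    have heq : ∀ k, A (σ k) = R := fun k => by
      refine (Finset.eq_of_subset_of_card_le (hR k) ?_).symm
      rw [(hA _).1]
      exact (hmax _ (hxZ _)).trans h7
    have hRc : R.card = mn x₀ := by
      have h8 : R.card = mn (x (σ 0)) := by rw [← heq 0]; exact (hA _).1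
      have h9 := hmax _ (hxZ (σ 0))
      omega
    refine ⟨σ, hσ, fun k => ⟨?_, by rw [heq k, heq 0]⟩⟩
    rw [heq k, hT]
    exact ⟨hRc, hRv⟩
  -- `T` is finite
  have hTfin : T.Finite := by
    by_contra hinf
    have hinf' : T.Infinite := hinf
    obtain ⟨σ, hσ, hk⟩ := key (fun k => (hinf'.natEmbedding T k : Finset Γ)) (fun _ => x₀)
      (fun _ => hx₀) tendsto_const_nhds (fun k =>
        hTm _ (hinf'.natEmbedding T k).2)
    have h2 := (hk 1).2
    have h3 := (hinf'.natEmbedding T).injective (Subtype.ext h2)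
    have h4 := hσ (show 0 < 1 by norm_num)
    omega
  have hTne : T.Nonempty := by
    obtain ⟨A, h1, h2, h3⟩ := hmn1 x₀
    exact ⟨A, by rw [hT]; exact ⟨h1, h3⟩⟩
  -- near `x₀` there is a minimiser in `T`
  obtain ⟨r, hr, hball⟩ : ∃ r > 0, ∀ x ∈ Z, ‖x - x₀‖ < r → ∃ A ∈ T, h A x = v x := by
    by_contra hcon
    push Not at hcon
    choose x hxZ hxr hxA using fun k : ℕ => hcon (1 / ((k : ℝ) + 1)) (by positivity)
    choose A hA1 hA2 hA3 using fun k => hmn1 (x k)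
    have hx : Tendsto x atTop (𝓝 x₀) := by
      rw [tendsto_iff_norm_sub_tendsto_zero]
      exact squeeze_zero (fun k => norm_nonneg _) (fun k => (hxr k).le)
        tendsto_one_div_add_atTop_nhds_zero_nat
    obtain ⟨σ, hσ, hk⟩ := key A x hxZ hx fun k => ⟨hA1 k, hA3 k⟩
    exact hxA _ _ (hk 0).1 (hA3 _)
  -- the minimum over `T`
  obtain ⟨g, hg'⟩ : ∃ g : X → ℝ, g = fun x => hTfin.toFinset.inf' (by simpa using hTne)
    (fun A => h A x) := ⟨_, rfl⟩
  have hTn : ∀ A ∈ T, A.card ≤ n := fun A hA => by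
    rw [hT] at hA
    rw [hA.1]
    exact hcardT
  have hgB : ∀ x y, |g x - g y| ≤ B * ‖x - y‖ := by
    have h1 : ∀ x y, g x - g y ≤ B * ‖x - y‖ := by
      intro x y
      obtain ⟨A, hA, hAe⟩ := hTfin.toFinset.exists_mem_eq_inf' (by simpa using hTne)
        (fun A => h A y)
      have h2 : g y = h A y := by rw [hg']; exact hAe
      have h3 : g x ≤ h A x := by rw [hg']; exact Finset.inf'_le _ hA
      have h4 := le_of_abs_le (hhB A x y)
      linarith
    intro x y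
    rw [abs_le]
    have h2 := h1 x y
    have h3 := h1 y x
    rw [norm_sub_rev] at h3
    constructor <;> linarith
  have hgG : Good N g s univ := by
    obtain ⟨f, hf⟩ := hTfin.countable.exists_eq_range hTne
    refine good_select hS hN hB hgB (fun k => h (f k)) (fun k => ⟨B, hB, hhB _⟩)
      (fun k => hg _ (hTn _ (by rw [hf]; exact mem_range_self k))) fun x => ?_
    obtain ⟨A, hA, hAe⟩ := hTfin.toFinset.exists_mem_eq_inf' (by simpa using hTne)
      (fun A => h A x)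
    rw [Finite.mem_toFinset, hf] at hA
    obtain ⟨k, rfl⟩ := hA
    exact ⟨k, by rw [hg']; exact hAe⟩
  refine ⟨x₀, hx₀, r, hr, g, B, hB, hgB, good_mono hN le_rfl isOpen_ball (subset_univ _) hgG,
    fun x hx hxr => ?_⟩
  obtain ⟨A, hA, hAv⟩ := hball x hx hxr
  refine le_antisymm ?_ ?_
  · rw [hg', ← hAv]
    exact Finset.inf'_le _ (by simpa using hA)
  · rw [hg']
    refine Finset.le_inf' _ _ fun A' hA' => hv1 A' (hTn A' (by simpa using hA')) x

end Pool.Agent.MP_85fd23_an.W
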